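import Pool.Agent.Q145.HC.Stm

/-!
# Project HC: lower bound from the Borel-Caratheodory theorem
-/

set_option autoImplicit false

namespace Pool.Agent.Q145.HC

open Metric Complex

/-- primitive of the logarithmic derivative on a ball -/
theorem BCL_exists_log {F : ℂ → ℂ} {c : ℂ} {R : ℝ} (hR : 0 < R)
    (hd : DifferentiableOn ℂ F (ball c R)) (hne : ∀ z ∈ ball c R, F z ≠ 0) :
    ∃ h : ℂ → ℂ, h c = 0 ∧ (∀ z ∈ ball c R, HasDerivAt h (deriv F z / F z) z) ∧
      ∀ z ∈ ball c R, F z = F c * cexp (h z) := by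
  have hdF : DifferentiableOn ℂ (deriv F) (ball c R) := hd.deriv isOpen_ball
  have hq : DifferentiableOn ℂ (fun z => deriv F z / F z) (ball c R) := hdF.div hd hne
  obtain ⟨h0, hh0⟩ := hq.isExactOn_ball
  have hc : c ∈ ball c R := mem_ball_self hR
  refine ⟨fun z => h0 z - h0 c, by simp, fun z hz => (hh0 z hz).sub_const _, ?_⟩
  intro z hz
  have hconst : ∀ z ∈ ball c R, F z * cexp (-(h0 z - h0 c)) = F c := by
    intro z hz
    have hder : ∀ w ∈ ball c R,
        HasDerivWithinAt (fun w => F w * cexp (-(h0 w - h0 c))) 0 (ball c R) w := by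
      intro w hw
      have h1 : HasDerivAt F (deriv F w) w :=
        ((hd w hw).differentiableAt (isOpen_ball.mem_nhds hw)).hasDerivAt
      have h2 := ((hh0 w hw).sub_const (h0 c)).neg.cexp
      have h3 := h1.mul h2
      have h4 : HasDerivAt (fun w => F w * cexp (-(h0 w - h0 c))) 0 w := by
        refine h3.congr_deriv ?_
        have := hne w hw
        field_simp
        ring
      exact h4.hasDerivWithinAt
    have := (convex_ball c R).norm_image_sub_le_of_norm_hasDerivWithin_le (𝕜 := ℂ)
      (f := fun w => F w * cexp (-(h0 w - h0 c))) (f' := fun _ => 0) (C := 0)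
      hder (fun w _ => by simp) hc hz
    rw [zero_mul, norm_le_zero_iff, sub_eq_zero] at this
    simpa using this
  have := hconst z hz
  rw [← this, mul_assoc, ← Complex.exp_add]
  simp

theorem t_BCL : S_BCL := by
  intro F c r m M hr hm hmc hd hne hM z hz
  have h2r : 0 < 2 * r := by linarith
  obtain ⟨h, hc0, hder, hF⟩ := BCL_exists_log h2r hd hne
  have hcm : c ∈ ball c (2 * r) := mem_ball_self h2r
  have hFc : 0 < ‖F c‖ := lt_of_lt_of_le hm hmc
  have hMm : m ≤ M := hmc.trans (hM c hcm)
  have hM0 : 0 < M := by linarith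
  obtain ⟨A, hA⟩ : ∃ A : ℝ, A = Real.log (M / m) := ⟨_, rfl⟩
  have hA0 : 0 ≤ A := by
    rw [hA]
    exact Real.log_nonneg (by rw [le_div_iff₀ hm]; linarith)
  have hre : ∀ w ∈ ball c (2 * r), (h w).re ≤ A := by
    intro w hw
    have h1 : ‖F w‖ = ‖F c‖ * Real.exp (h w).re := by
      rw [hF w hw, norm_mul, norm_exp]
    have h2 := hM w hw
    rw [h1] at h2
    rw [hA, Real.le_log_iff_exp_le (by positivity), le_div_iff₀ hm]
    calc Real.exp (h w).re * m ≤ Real.exp (h w).re * ‖F c‖ :=
          mul_le_mul_of_nonneg_left hmc (Real.exp_pos _).le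
      _ = ‖F c‖ * Real.exp (h w).re := mul_comm _ _
      _ ≤ M := h2
  have hmem : ∀ w ∈ ball (0 : ℂ) (2 * r), c + w ∈ ball c (2 * r) := by
    intro w hw
    simpa [mem_ball, dist_eq_norm] using hw
  have hdh : DifferentiableOn ℂ h (ball c (2 * r)) := fun w hw =>
    (hder w hw).differentiableAt.differentiableWithinAt
  have hd2 : DifferentiableOn ℂ (fun w => h (c + w)) (ball 0 (2 * r)) :=
    hdh.comp (by fun_prop) hmem
  have hzr : ‖z - c‖ ≤ r := by
    simpa [mem_closedBall, dist_eq_norm] using hz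
  have hzm : z - c ∈ ball (0 : ℂ) (2 * r) := by
    rw [mem_ball_zero_iff]
    linarith
  have hzb : z ∈ ball c (2 * r) := by
    rw [mem_ball, dist_eq_norm]
    linarith
  have hbound : ‖h z‖ / 2 ≤ A := by
    refine le_of_forall_pos_le_add fun ε hε => ?_
    have hmaps : Set.MapsTo (fun w => h (c + w)) (ball 0 (2 * r)) {z | z.re ≤ A + ε} := by
      intro w hw
      simp only [Set.mem_ofPred_eq]
      have := hre _ (hmem w hw)
      linarith
    have h1 := borelCaratheodory_zero (by linarith : 0 < A + ε) hd2 hmaps h2r hzm (by simp [hc0])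
    simp only [add_sub_cancel] at h1
    have h2 : 2 * (A + ε) * ‖z - c‖ / (2 * r - ‖z - c‖) ≤ 2 * (A + ε) := by
      rw [div_le_iff₀ (by linarith)]
      exact mul_le_mul_of_nonneg_left (by linarith) (by linarith)
    linarith
  have hlow : -(2 * A) ≤ (h z).re := by
    have := (abs_le.1 (abs_re_le_norm (h z))).1
    linarith
  have hfin : ‖F z‖ = ‖F c‖ * Real.exp (h z).re := by
    rw [hF z hzb, norm_mul, norm_exp]
  rw [hfin]
  have hexp : (m / M) ^ 2 = Real.exp (-(2 * A)) := by
    rw [hA, Real.exp_neg, two_mul, Real.exp_add, Real.exp_log (by positivity)]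
    field_simp
  rw [hexp]
  exact mul_le_mul hmc (Real.exp_le_exp.2 hlow) (Real.exp_pos _).le hFc.le

end Pool.Agent.Q145.HC
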