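import Pool.Agent.Q237.HC.GslB
import Mathlib.Data.Finset.NatDivisors

/-!
# Project HC, job GSL: from characters to fractions
-/

set_option autoImplicit false

namespace Pool.Agent.Q145.HC

open Finset
open Pool.Agent.H807R2.Dav (ee)
open Pool.Agent.Q145.SZ

namespace GSLx

theorem swap (N : ℕ) (F : ℕ → ℕ → ℝ) (hF : ∀ a b, 0 ≤ F a b) :
    ∑ k ∈ Icc 1 N, ∑ j ∈ k.divisors, F j (k / j) ≤
      ∑ j ∈ Icc 1 N, ∑ l ∈ Icc 1 N, F j l := by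
  have h1 : ∑ k ∈ Icc 1 N, ∑ j ∈ k.divisors, F j (k / j) =
      ∑ j ∈ Icc 1 N, ∑ k ∈ (Icc 1 N).filter (fun k => j ∣ k), F j (k / j) := by
    refine sum_comm' fun k j => ?_
    simp only [mem_Icc, mem_filter, Nat.mem_divisors]
    constructor
    · rintro ⟨⟨h2, h3⟩, ⟨h4, h5⟩⟩
      have h7 : j ≤ k := Nat.le_of_dvd (by omega) h4
      have h8 : 0 < j := Nat.pos_of_dvd_of_pos h4 (by omega)
      exact ⟨⟨⟨h2, h3⟩, h4⟩, by omega, by omega⟩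
    · rintro ⟨⟨⟨h2, h3⟩, h4⟩, ⟨h5, h5'⟩⟩
      exact ⟨⟨h2, h3⟩, h4, by omega⟩
  rw [h1]
  refine sum_le_sum fun j hj => ?_
  rw [mem_Icc] at hj
  have hinj : Set.InjOn (fun k => k / j) ((Icc 1 N).filter (fun k => j ∣ k) : Finset ℕ) := by
    intro a ha b hb hab
    rw [mem_coe, mem_filter] at ha hb
    simp only at hab
    rw [← Nat.div_mul_cancel ha.2, ← Nat.div_mul_cancel hb.2, hab]
  rw [← sum_image (f := fun l => F j l) hinj]
  apply sum_le_sum_of_subset_of_nonneg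
  · intro g hg
    rw [mem_image] at hg
    obtain ⟨D, hD, rfl⟩ := hg
    rw [mem_filter, mem_Icc] at hD
    rw [mem_Icc]
    exact ⟨Nat.div_pos (Nat.le_of_dvd (by omega) hD.2) (by omega),
      (Nat.div_le_self _ _).trans hD.1.2⟩
  · intro g _ _
    exact hF j g

theorem tau_mul (a b : ℕ) : ((a * b).divisors.card : ℝ) ≤ a.divisors.card * b.divisors.card := by
  rw [Nat.divisors_mul]
  exact_mod_cast Finset.card_mul_le

theorem tot_pos {a : ℕ} (ha : 0 < a) : (0 : ℝ) < Nat.totient a := by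
  exact_mod_cast Nat.totient_pos.2 ha

theorem inv_tot_mul {a b : ℕ} (ha : 0 < a) (hb : 0 < b) :
    1 / (Nat.totient (a * b) : ℝ) ≤ 1 / (Nat.totient a : ℝ) * (1 / (Nat.totient b : ℝ)) := by
  rw [one_div_mul_one_div]
  have h1 := tot_pos ha
  have h2 := tot_pos hb
  apply one_div_le_one_div_of_le (by positivity)
  exact_mod_cast Nat.totient_super_multiplicative a b

theorem reindex (k g : ℕ) (hk : 0 < k) (hg : g ∣ k) (t : ℕ → ℝ) :
    ∑ d ∈ (k / g).divisors, t (g * d) = ∑ j ∈ k.divisors.filter (fun j => g ∣ j), t j := by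
  have hg0 : 0 < g := Nat.pos_of_dvd_of_pos hg hk
  refine sum_nbij' (fun d => g * d) (fun j => j / g) ?_ ?_ ?_ ?_ ?_
  · intro d hd
    rw [Nat.mem_divisors] at hd
    rw [mem_filter, Nat.mem_divisors]
    refine ⟨⟨?_, by omega⟩, dvd_mul_right _ _⟩
    have := Nat.mul_dvd_mul_left g hd.1
    rwa [Nat.mul_div_cancel' hg] at this
  · intro j hj
    rw [mem_filter, Nat.mem_divisors] at hj
    rw [Nat.mem_divisors]
    exact ⟨Nat.div_dvd_div hj.2 hj.1.1, (Nat.div_pos (Nat.le_of_dvd hk hg) hg0).ne'⟩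
  · intro d _
    exact Nat.mul_div_cancel_left d hg0
  · intro j hj
    rw [mem_filter] at hj
    exact Nat.mul_div_cancel' hj.2
  · intro d _
    rfl

theorem R_le (N k : ℕ) (hk : k ∈ Icc 1 N) (t : ℕ → ℝ) (ht : ∀ j, 0 ≤ t j) (L : ℝ)
    (hL : ∑ d ∈ Icc 1 N, 1 / (Nat.totient d : ℝ) ≤ L) :
    ∑ g ∈ k.divisors, (1 / (Nat.totient (k / g) : ℝ)) * ∑ d ∈ (k / g).divisors, t (g * d) ≤
      ∑ j ∈ k.divisors, L * (1 / (Nat.totient (k / j) : ℝ)) * t j := by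
  rw [mem_Icc] at hk
  have hk0 : 0 < k := by omega
  have h1 : ∑ g ∈ k.divisors, (1 / (Nat.totient (k / g) : ℝ)) *
      ∑ d ∈ (k / g).divisors, t (g * d) =
      ∑ g ∈ k.divisors, ∑ j ∈ k.divisors.filter (fun j => g ∣ j),
        (1 / (Nat.totient (k / g) : ℝ)) * t j := by
    refine sum_congr rfl fun g hg => ?_
    rw [reindex k g hk0 (Nat.mem_divisors.1 hg).1, mul_sum]
  have h2 : ∑ g ∈ k.divisors, ∑ j ∈ k.divisors.filter (fun j => g ∣ j),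
        (1 / (Nat.totient (k / g) : ℝ)) * t j =
      ∑ j ∈ k.divisors, ∑ g ∈ j.divisors, (1 / (Nat.totient (k / g) : ℝ)) * t j := by
    refine sum_comm' fun g j => ?_
    simp only [mem_filter, Nat.mem_divisors]
    constructor
    · rintro ⟨⟨a1, a2⟩, ⟨a3, a4⟩, a5⟩
      exact ⟨⟨a5, (Nat.pos_of_dvd_of_pos a3 hk0).ne'⟩, a3, a4⟩
    · rintro ⟨⟨a1, a2⟩, a3, a4⟩
      exact ⟨⟨a1.trans a3, a4⟩, ⟨a3, a4⟩, a1⟩
  rw [h1, h2]
  refine sum_le_sum fun j hj => ?_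
  have hjk := (Nat.mem_divisors.1 hj).1
  have hj0 : 0 < j := Nat.pos_of_dvd_of_pos hjk hk0
  rw [← sum_mul]
  refine mul_le_mul_of_nonneg_right ?_ (ht j)
  have h3 : ∀ g ∈ j.divisors, 1 / (Nat.totient (k / g) : ℝ) ≤
      1 / (Nat.totient (j / g) : ℝ) * (1 / (Nat.totient (k / j) : ℝ)) := by
    intro g hg
    obtain ⟨d, rfl⟩ := (Nat.mem_divisors.1 hg).1
    obtain ⟨e, rfl⟩ := hjk
    have hg0 : 0 < g := Nat.pos_of_ne_zero (by rintro rfl; simp at hj0)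
    have hd0 : 0 < d := Nat.pos_of_ne_zero (by rintro rfl; simp at hj0)
    have he0 : 0 < e := Nat.pos_of_ne_zero (by rintro rfl; simp at hk0)
    rw [Nat.mul_div_cancel_left d hg0, Nat.mul_div_cancel_left e hj0, mul_assoc,
      Nat.mul_div_cancel_left _ hg0]
    exact inv_tot_mul hd0 he0
  refine (sum_le_sum h3).trans ?_
  rw [← sum_mul]
  refine mul_le_mul_of_nonneg_right ?_ (by positivity)
  rw [Nat.sum_div_divisors j (fun d => 1 / (Nat.totient d : ℝ))]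
  refine le_trans (sum_le_sum_of_subset_of_nonneg ?_ fun _ _ _ => by positivity) hL
  intro d hd
  rw [mem_Icc]
  have h4 := (Nat.mem_divisors.1 hd).1
  have h5 := Nat.le_of_dvd hj0 h4
  have h6 := Nat.le_of_dvd hk0 hjk
  have h7 := Nat.pos_of_dvd_of_pos h4 hj0
  omega

theorem tau_sum (N : ℕ) :
    ∑ l ∈ Icc 1 N, (l : ℝ) * (l.divisors.card : ℝ) * (1 / (Nat.totient l : ℝ)) ^ 2 ≤
      (∑ a ∈ Icc 1 N, (1 / (a : ℝ)) * ((a : ℝ) / (Nat.totient a : ℝ)) ^ 2) ^ 2 := by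
  have h1 : ∑ l ∈ Icc 1 N, (l : ℝ) * (l.divisors.card : ℝ) * (1 / (Nat.totient l : ℝ)) ^ 2 ≤
      ∑ l ∈ Icc 1 N, ∑ a ∈ l.divisors, ((a : ℝ) * (1 / (Nat.totient a : ℝ)) ^ 2) *
        (((l / a : ℕ) : ℝ) * (1 / (Nat.totient (l / a) : ℝ)) ^ 2) := by
    refine sum_le_sum fun l hl => ?_
    rw [mem_Icc] at hl
    have h2 : (l : ℝ) * (l.divisors.card : ℝ) * (1 / (Nat.totient l : ℝ)) ^ 2 =
        ∑ _a ∈ l.divisors, (l : ℝ) * (1 / (Nat.totient l : ℝ)) ^ 2 := by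
      rw [sum_const, nsmul_eq_mul]
      ring
    rw [h2]
    refine sum_le_sum fun a ha => ?_
    obtain ⟨b, hb⟩ := (Nat.mem_divisors.1 ha).1
    have ha0 : 0 < a := Nat.pos_of_mem_divisors ha
    have hb0 : 0 < b := Nat.pos_of_ne_zero (by rintro rfl; simp at hb; omega)
    rw [hb, Nat.mul_div_cancel_left b ha0]
    have h3 := inv_tot_mul ha0 hb0
    calc ((a * b : ℕ) : ℝ) * (1 / (Nat.totient (a * b) : ℝ)) ^ 2
        ≤ ((a * b : ℕ) : ℝ) * (1 / (Nat.totient a : ℝ) * (1 / (Nat.totient b : ℝ))) ^ 2 := by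
          gcongr
      _ = _ := by
          push_cast
          ring
  refine h1.trans ((swap N (fun a b => ((a : ℝ) * (1 / (Nat.totient a : ℝ)) ^ 2) *
        ((b : ℝ) * (1 / (Nat.totient b : ℝ)) ^ 2)) fun a b => by positivity).trans ?_)
  rw [← sum_mul_sum, ← sq]
  refine pow_le_pow_left₀ (sum_nonneg fun _ _ => by positivity) (le_of_eq ?_) 2
  refine sum_congr rfl fun a ha => ?_
  rw [mem_Icc] at ha
  have ha0 : (0 : ℝ) < a := by exact_mod_cast (by omega : 0 < a)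
  have := tot_pos (a := a) (by omega)
  field_simp

theorem square_sum (N : ℕ) (t : ℕ → ℝ) (ht : ∀ j, 0 ≤ t j) (L : ℝ)
    (hL : ∑ d ∈ Icc 1 N, 1 / (Nat.totient d : ℝ) ≤ L) :
    ∑ k ∈ Icc 1 N, (k : ℝ) * (∑ g ∈ k.divisors, (1 / (Nat.totient (k / g) : ℝ)) *
      ∑ d ∈ (k / g).divisors, t (g * d)) ^ 2 ≤
    L ^ 2 * (∑ l ∈ Icc 1 N, (l : ℝ) * (l.divisors.card : ℝ) * (1 / (Nat.totient l : ℝ)) ^ 2) *
      ∑ j ∈ Icc 1 N, (j : ℝ) * (j.divisors.card : ℝ) * (t j) ^ 2 := by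
  have h1 : ∑ k ∈ Icc 1 N, (k : ℝ) * (∑ g ∈ k.divisors, (1 / (Nat.totient (k / g) : ℝ)) *
      ∑ d ∈ (k / g).divisors, t (g * d)) ^ 2 ≤
      ∑ k ∈ Icc 1 N, ∑ j ∈ k.divisors, ((j : ℝ) * (j.divisors.card : ℝ) * (t j) ^ 2) *
        (L ^ 2 * (((k / j : ℕ) : ℝ) * ((k / j).divisors.card : ℝ) *
          (1 / (Nat.totient (k / j) : ℝ)) ^ 2)) := by
    refine sum_le_sum fun k hk => ?_
    have h2 := R_le N k hk t ht L hL
    have h0 : 0 ≤ ∑ g ∈ k.divisors, (1 / (Nat.totient (k / g) : ℝ)) *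
        ∑ d ∈ (k / g).divisors, t (g * d) :=
      sum_nonneg fun _ _ => mul_nonneg (by positivity) (sum_nonneg fun _ _ => ht _)
    have h3 : (∑ g ∈ k.divisors, (1 / (Nat.totient (k / g) : ℝ)) *
        ∑ d ∈ (k / g).divisors, t (g * d)) ^ 2 ≤
        (k.divisors.card : ℝ) * ∑ j ∈ k.divisors,
          (L * (1 / (Nat.totient (k / j) : ℝ)) * t j) ^ 2 :=
      (pow_le_pow_left₀ h0 h2 2).trans sq_sum_le_card_mul_sum_sq
    refine (mul_le_mul_of_nonneg_left h3 (Nat.cast_nonneg k)).trans ?_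
    rw [mul_sum, mul_sum]
    refine sum_le_sum fun j hj => ?_
    obtain ⟨b, hb⟩ := (Nat.mem_divisors.1 hj).1
    have hj0 : 0 < j := Nat.pos_of_mem_divisors hj
    rw [hb, Nat.mul_div_cancel_left b hj0]
    have h4 := tau_mul j b
    calc ((j * b : ℕ) : ℝ) * (((j * b).divisors.card : ℝ) *
          (L * (1 / (Nat.totient b : ℝ)) * t j) ^ 2)
        ≤ ((j * b : ℕ) : ℝ) * (((j.divisors.card : ℝ) * b.divisors.card) *
          (L * (1 / (Nat.totient b : ℝ)) * t j) ^ 2) := by gcongr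
      _ = _ := by
          push_cast
          ring
  refine h1.trans ((swap N (fun j b => ((j : ℝ) * (j.divisors.card : ℝ) * (t j) ^ 2) *
        (L ^ 2 * ((b : ℝ) * (b.divisors.card : ℝ) * (1 / (Nat.totient b : ℝ)) ^ 2)))
        fun a b => by positivity).trans (le_of_eq ?_))
  rw [← sum_mul_sum, ← mul_sum]
  ring

end GSLx

open GSLx in
theorem t_GSL : S_GSL := by
  classical
  obtain ⟨C₁, hC₁, h1⟩ := GSx.sum_inv_tot
  obtain ⟨C₂, hC₂, h2⟩ := Pool.Agent.Helper112.sum_ratio_sq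
  refine ⟨C₁ ^ 2 * C₂ ^ 2, by positivity, fun Q n n' β hQ hn => ?_⟩
  have hQ0 : (1 : ℝ) ≤ Q := by exact_mod_cast hQ
  have hl : 0 ≤ Real.log Q := Real.log_nonneg hQ0
  obtain ⟨G, hG⟩ : ∃ G : ℕ → ℕ → ℝ, G = fun (f k : ℕ) => ((f : ℝ) / Nat.totient f) * (k : ℝ) *
      ∑ ψ ∈ prim f, (RR ψ n n' β k) ^ 2 := ⟨_, rfl⟩
  have e1 : ∑ q ∈ Icc 1 Q, ∑ r ∈ (range q).filter (fun r => r.Coprime q),
      ‖∑ u ∈ Ioc n n', ((lm u : ℝ) : ℂ) * ee (u * ((r : ℝ) / q + β))‖ ^ 2 ≤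
      ∑ q ∈ Icc 1 Q, ∑ f ∈ q.divisors, G f (q / f) := by
    refine sum_le_sum fun q hq => ?_
    rw [mem_Icc] at hq
    haveI : NeZero q := ⟨by omega⟩
    rw [hG]
    exact level_sum q n n' β
  have e2 : ∑ q ∈ Icc 1 Q, ∑ f ∈ q.divisors, G f (q / f) ≤
      ∑ f ∈ Icc 1 Q, ∑ k ∈ Icc 1 Q, G f k := by
    refine swap Q G fun a b => ?_
    rw [hG]
    exact mul_nonneg (by positivity) (sum_nonneg fun _ _ => sq_nonneg _)
  have hL0 : 0 ≤ ∑ d ∈ Icc 1 Q, 1 / (Nat.totient d : ℝ) := sum_nonneg fun _ _ => by positivity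
  have hK : (C₁ * (1 + Real.log Q)) ^ 2 *
      (∑ l ∈ Icc 1 Q, (l : ℝ) * (l.divisors.card : ℝ) * (1 / (Nat.totient l : ℝ)) ^ 2) ≤
      C₁ ^ 2 * C₂ ^ 2 * (1 + Real.log Q) ^ 6 := by
    have a1 := tau_sum Q
    have a2 := h2 Q hQ
    have a3 : 0 ≤ ∑ a ∈ Icc 1 Q, (1 / (a : ℝ)) * ((a : ℝ) / (Nat.totient a : ℝ)) ^ 2 :=
      sum_nonneg fun _ _ => by positivity
    have a4 : (∑ a ∈ Icc 1 Q, (1 / (a : ℝ)) * ((a : ℝ) / (Nat.totient a : ℝ)) ^ 2) ^ 2 ≤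
        (C₂ * (1 + Real.log Q)) ^ 2 := pow_le_pow_left₀ a3 a2 2
    have a5 : (1 + Real.log Q) ^ 4 ≤ (1 + Real.log Q) ^ 6 :=
      pow_le_pow_right₀ (by linarith) (by norm_num)
    calc (C₁ * (1 + Real.log Q)) ^ 2 *
        (∑ l ∈ Icc 1 Q, (l : ℝ) * (l.divisors.card : ℝ) * (1 / (Nat.totient l : ℝ)) ^ 2)
        ≤ (C₁ * (1 + Real.log Q)) ^ 2 * (C₂ * (1 + Real.log Q)) ^ 2 :=
          mul_le_mul_of_nonneg_left (a1.trans a4) (sq_nonneg _)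
      _ = C₁ ^ 2 * C₂ ^ 2 * (1 + Real.log Q) ^ 4 := by ring
      _ ≤ _ := mul_le_mul_of_nonneg_left a5 (by positivity)
  have e3 : ∀ f ∈ Icc 1 Q, ∑ k ∈ Icc 1 Q, G f k ≤ ((f : ℝ) / Nat.totient f) *
      ∑ ψ ∈ prim f, C₁ ^ 2 * C₂ ^ 2 * (1 + Real.log Q) ^ 6 *
        ∑ j ∈ Icc 1 Q, (j : ℝ) * (j.divisors.card : ℝ) * (TT ψ n n' β j) ^ 2 := by
    intro f hf
    have b1 : ∑ k ∈ Icc 1 Q, G f k = ((f : ℝ) / Nat.totient f) *
        ∑ ψ ∈ prim f, ∑ k ∈ Icc 1 Q, (k : ℝ) * (RR ψ n n' β k) ^ 2 := by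
      rw [hG]
      simp only
      rw [sum_comm, mul_sum]
      refine sum_congr rfl fun k _ => ?_
      rw [mul_assoc, mul_sum]
    rw [b1]
    refine mul_le_mul_of_nonneg_left (sum_le_sum fun ψ _ => ?_) (by positivity)
    have b2 := square_sum Q (TT ψ n n' β) (TT_nonneg ψ n n' β) (C₁ * (1 + Real.log Q)) (h1 Q hQ)
    have b3 : 0 ≤ ∑ j ∈ Icc 1 Q, (j : ℝ) * (j.divisors.card : ℝ) * (TT ψ n n' β j) ^ 2 :=
      sum_nonneg fun _ _ => by positivity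
    exact b2.trans (mul_le_mul_of_nonneg_right hK b3)
  refine e1.trans (e2.trans ((sum_le_sum e3).trans (le_of_eq ?_)))
  simp only [← mul_sum]
  have e4 : ∀ f ∈ Icc 1 Q, ((f : ℝ) / Nat.totient f) *
      (C₁ ^ 2 * C₂ ^ 2 * (1 + Real.log Q) ^ 6 *
        ∑ ψ ∈ prim f, ∑ j ∈ Icc 1 Q, (j : ℝ) * (j.divisors.card : ℝ) * (TT ψ n n' β j) ^ 2) =
      C₁ ^ 2 * C₂ ^ 2 * (1 + Real.log Q) ^ 6 * ∑ j ∈ Icc 1 Q,
        (j : ℝ) * (j.divisors.card : ℝ) * (((f : ℝ) / Nat.totient f) *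
          ∑ ψ ∈ prim f, (TT ψ n n' β j) ^ 2) := by
    intro f _
    rw [sum_comm]
    simp only [mul_sum]
    refine sum_congr rfl fun j _ => sum_congr rfl fun ψ _ => ?_
    ring
  rw [sum_congr rfl e4, ← mul_sum, sum_comm]
  simp only [← mul_sum]
  rfl

end Pool.Agent.Q145.HC
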