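import Pool.Agent.Q145.HC.Stm
import Pool.Agent.Q145.SZ.GS

/-!
# Project HC, job GSL: characters and fractions (level `q`)
-/

set_option autoImplicit false

namespace Pool.Agent.Q145.HC

open Finset
open Pool.Agent.H807R2.Dav (ee)
open Pool.Agent.Q145.SZ

namespace GSLx

theorem lm_mul {a b : ℕ} (ha : a ≠ 0) (hb : b ≠ 0) : lm (a * b) = lm a * lm b := by
  unfold lm
  rw [ArithmeticFunction.cardFactors_mul ha hb, pow_add]

theorem norm_lm (a : ℕ) : ‖((lm a : ℝ) : ℂ)‖ = 1 := by
  unfold lm
  push_cast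
  rw [norm_pow, norm_neg, norm_one, one_pow]

/-- the additive character as a combination of characters -/
theorem add_eq (D : ℕ) [NeZero D] (x : ZMod D) (hx : IsUnit x) :
    (ZMod.stdAddChar x : ℂ) = ∑ χ : DirichletCharacter ℂ D,
      ((1 / (Nat.totient D : ℂ)) * H385.tau D χ⁻¹) * χ x := by
  classical
  have hφ : (Nat.totient D : ℂ) ≠ 0 := by
    have : 0 < Nat.totient D := Nat.totient_pos.2 (NeZero.pos D)
    exact_mod_cast this.ne'
  have h1 : ∀ z : ZMod D, ∑ χ : DirichletCharacter ℂ D, χ⁻¹ z * χ x =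
      if z = x then (Nat.totient D : ℂ) else 0 := by
    intro z
    by_cases hz : IsUnit z
    · rw [← DirichletCharacter.sum_char_inv_mul_char_eq ℂ hz x]
      refine sum_congr rfl fun χ _ => ?_
      congr 1
      have e1 : χ⁻¹ z * χ z = 1 := by
        rw [← MulChar.mul_apply, inv_mul_cancel, MulChar.one_apply hz]
      have e2 : χ z⁻¹ * χ z = 1 := by
        rw [← map_mul, ZMod.inv_mul_of_unit z hz, map_one]
      have e3 : χ z ≠ 0 := right_ne_zero_of_mul_eq_one e1
      exact mul_right_cancel₀ e3 (e1.trans e2.symm)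
    · rw [if_neg (fun h : z = x => hz (h.symm ▸ hx))]
      exact sum_eq_zero fun χ _ => by rw [MulChar.map_nonunit _ hz, zero_mul]
  have h2 : ∑ χ : DirichletCharacter ℂ D, H385.tau D χ⁻¹ * χ x =
      (Nat.totient D : ℂ) * ZMod.stdAddChar x := by
    have h3 : ∀ χ : DirichletCharacter ℂ D, H385.tau D χ⁻¹ * χ x =
        ∑ z : ZMod D, (χ⁻¹ z * χ x) * ZMod.stdAddChar z := by
      intro χ
      rw [H385.tau_eq]
      unfold gaussSum
      rw [sum_mul]
      exact sum_congr rfl fun z _ => by ring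
    rw [sum_congr rfl fun χ _ => h3 χ, sum_comm]
    have h4 : ∀ z : ZMod D, ∑ χ : DirichletCharacter ℂ D, (χ⁻¹ z * χ x) * ZMod.stdAddChar z =
        if z = x then (Nat.totient D : ℂ) * ZMod.stdAddChar z else 0 := by
      intro z
      rw [← sum_mul, h1 z]
      split_ifs <;> simp
    rw [sum_congr rfl fun z _ => h4 z]
    simp
  have h5 : ∀ χ : DirichletCharacter ℂ D, ((1 / (Nat.totient D : ℂ)) * H385.tau D χ⁻¹) * χ x =
      (1 / (Nat.totient D : ℂ)) * (H385.tau D χ⁻¹ * χ x) := fun χ => by ring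
  rw [sum_congr rfl fun χ _ => h5 χ, ← mul_sum, h2]
  field_simp

/-- reduction of the additive character -/
theorem add_red (q g D : ℕ) [NeZero q] [NeZero D] (hq : q = g * D) (u : ℕ) (z : ZMod q) :
    (ZMod.stdAddChar (((g * u : ℕ) : ZMod q) * z) : ℂ) =
      ZMod.stdAddChar ((u : ZMod D) * (z.val : ZMod D)) := by
  have h1 : ((g * u : ℕ) : ZMod q) * z = ((g * u * z.val : ℕ) : ZMod q) := by
    rw [Nat.cast_mul (g * u) z.val, ZMod.natCast_zmod_val]
  have h2 : (u : ZMod D) * (z.val : ZMod D) = ((u * z.val : ℕ) : ZMod D) := by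
    rw [Nat.cast_mul]
  rw [h1, h2, H385.GaussAux.stdAddChar_nat, H385.GaussAux.stdAddChar_nat]
  congr 1
  have hg : (g : ℝ) ≠ 0 := by
    have : g ≠ 0 := by
      rintro rfl
      exact NeZero.ne q (by simp [hq])
    exact_mod_cast this
  have hD : (D : ℝ) ≠ 0 := by exact_mod_cast NeZero.ne D
  have hqR : (q : ℝ) = (g : ℝ) * D := by exact_mod_cast hq
  rw [hqR]
  push_cast
  field_simp

theorem cast_level (q D : ℕ) [NeZero q] (hD : D ∣ q) (χ : DirichletCharacter ℂ D) (z : ZMod q)
    (hz : IsUnit z) : χ (z.val : ZMod D) = DirichletCharacter.changeLevel hD χ z := by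
  obtain ⟨w, rfl⟩ := hz
  rw [DirichletCharacter.changeLevel_eq_cast_of_dvd χ hD w, ZMod.natCast_val]

theorem sum_inv_mul (q : ℕ) [NeZero q] (χ χ' : DirichletCharacter ℂ q) [Decidable (χ' = χ)] :
    ∑ z : ZMod q, χ⁻¹ z * χ' z = if χ' = χ then (Nat.totient q : ℂ) else 0 := by
  have h0 : ∀ z : ZMod q, χ⁻¹ z * χ' z = (χ⁻¹ * χ') z := fun z => (MulChar.mul_apply _ _ _).symm
  rw [sum_congr rfl fun z _ => h0 z]
  split_ifs with h
  · rw [h, inv_mul_cancel]
    have := MulChar.sum_one_eq_card_units (R := ZMod q) (R' := ℂ)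
    rw [this, ZMod.card_units_eq_totient]
  · refine MulChar.sum_eq_zero_of_ne_one fun hc => h ?_
    exact (inv_mul_eq_one.1 hc).symm

open Classical in
/-- the twisted Gauss sum -/
theorem gauss_eq (q g D : ℕ) [NeZero q] [NeZero D] (hq : q = g * D) (hD : D ∣ q)
    (χ : DirichletCharacter ℂ q) (u : ℕ) (hu : u.Coprime D) :
    ∑ z : ZMod q, χ⁻¹ z * ZMod.stdAddChar (((g * u : ℕ) : ZMod q) * z) =
      ∑ ξ : DirichletCharacter ℂ D, ((1 / (Nat.totient D : ℂ)) * H385.tau D ξ⁻¹) *
        (if DirichletCharacter.changeLevel hD ξ = χ then (Nat.totient q : ℂ) else 0) *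
          ξ (u : ZMod D) := by
  have hu' : IsUnit (u : ZMod D) := (ZMod.isUnit_iff_coprime u D).2 hu
  have h1 : ∀ z : ZMod q, χ⁻¹ z * ZMod.stdAddChar (((g * u : ℕ) : ZMod q) * z) =
      ∑ ξ : DirichletCharacter ℂ D, ((1 / (Nat.totient D : ℂ)) * H385.tau D ξ⁻¹) *
        ξ (u : ZMod D) * (χ⁻¹ z * DirichletCharacter.changeLevel hD ξ z) := by
    intro z
    by_cases hz : IsUnit z
    · have hz' : IsUnit (z.val : ZMod D) := by
        rw [ZMod.isUnit_iff_coprime]
        have h2 : z.val.Coprime q := by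
          rw [← ZMod.isUnit_iff_coprime, ZMod.natCast_zmod_val]
          exact hz
        exact Nat.Coprime.coprime_dvd_right hD h2
      rw [add_red q g D hq u z, add_eq D _ (hu'.mul hz'), mul_sum]
      refine sum_congr rfl fun ξ _ => ?_
      rw [map_mul, cast_level q D hD ξ z hz]
      ring
    · rw [MulChar.map_nonunit _ hz, zero_mul]
      symm
      exact sum_eq_zero fun ξ _ => by rw [zero_mul, mul_zero]
  rw [sum_congr rfl fun z _ => h1 z, sum_comm]
  refine sum_congr rfl fun ξ _ => ?_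
  rw [← mul_sum, sum_inv_mul]
  ring

open Classical in
/-- one level: only the character induced by `ψ` contributes -/
theorem level_bound (q D f : ℕ) [NeZero q] [NeZero D] (hD : D ∣ q) (hf : f ∣ q)
    (ψ : DirichletCharacter ℂ f) (hψ : ψ.IsPrimitive) (B : DirichletCharacter ℂ D → ℂ) (b : ℝ)
    (hB : ∀ h : f ∣ D, ‖B (DirichletCharacter.changeLevel h ψ)‖ ≤ b) :
    ‖∑ ξ : DirichletCharacter ℂ D, ((1 / (Nat.totient D : ℂ)) * H385.tau D ξ⁻¹) *
        (if DirichletCharacter.changeLevel hD ξ = DirichletCharacter.changeLevel hf ψ then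
          (Nat.totient q : ℂ) else 0) * B ξ‖ ≤
      if f ∣ D then (Nat.totient q : ℝ) * (1 / (Nat.totient D : ℝ)) * √(f : ℝ) * b else 0 := by
  by_cases h : f ∣ D
  · rw [if_pos h]
    have h1 : ∀ ξ : DirichletCharacter ℂ D, (DirichletCharacter.changeLevel hD ξ =
        DirichletCharacter.changeLevel hf ψ ↔ ξ = DirichletCharacter.changeLevel h ψ) := by
      intro ξ
      constructor
      · intro h2
        apply DirichletCharacter.changeLevel_injective hD
        rw [h2, ← DirichletCharacter.changeLevel_trans ψ h hD]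
      · rintro rfl
        rw [← DirichletCharacter.changeLevel_trans ψ h hD]
    have h2 : ∑ ξ : DirichletCharacter ℂ D, ((1 / (Nat.totient D : ℂ)) * H385.tau D ξ⁻¹) *
        (if DirichletCharacter.changeLevel hD ξ = DirichletCharacter.changeLevel hf ψ then
          (Nat.totient q : ℂ) else 0) * B ξ =
        ((1 / (Nat.totient D : ℂ)) * H385.tau D (DirichletCharacter.changeLevel h ψ)⁻¹) *
          (Nat.totient q : ℂ) * B (DirichletCharacter.changeLevel h ψ) := by
      rw [sum_eq_single (DirichletCharacter.changeLevel h ψ)]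
      · rw [if_pos ((h1 _).2 rfl)]
      · intro ξ _ hne
        rw [if_neg fun hc => hne ((h1 ξ).1 hc), mul_zero, zero_mul]
      · intro hc
        exact absurd (mem_univ _) hc
    rw [h2, norm_mul, norm_mul, norm_mul, norm_div, norm_one, Complex.norm_natCast,
      Complex.norm_natCast, H385.norm_tau_inv]
    have h3 : ‖H385.tau D (DirichletCharacter.changeLevel h ψ)‖ ≤ √(f : ℝ) := by
      rw [← Real.sqrt_sq (norm_nonneg (H385.tau D (DirichletCharacter.changeLevel h ψ)))]
      exact Real.sqrt_le_sqrt (GSx.tau_le f D h ψ hψ)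
    calc 1 / (Nat.totient D : ℝ) * ‖H385.tau D (DirichletCharacter.changeLevel h ψ)‖ *
          (Nat.totient q : ℝ) * ‖B (DirichletCharacter.changeLevel h ψ)‖
        ≤ 1 / (Nat.totient D : ℝ) * √(f : ℝ) * (Nat.totient q : ℝ) * b := by
          gcongr
          exact hB h
      _ = _ := by ring
  · rw [if_neg h]
    have h2 : ∀ ξ : DirichletCharacter ℂ D, ¬ (DirichletCharacter.changeLevel hD ξ =
        DirichletCharacter.changeLevel hf ψ) := by
      intro ξ hc
      apply h
      have h3 : (DirichletCharacter.changeLevel hf ψ).FactorsThrough D := by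
        rw [← hc]
        exact DirichletCharacter.changeLevel_factorsThrough ξ hD
      have h4 := DirichletCharacter.conductor_dvd_of_mem_conductorSet _ h3
      rw [DirichletCharacter.conductor_changeLevel] at h4
      rwa [(DirichletCharacter.isPrimitive_def ψ).1 hψ] at h4
    rw [sum_eq_zero fun ξ _ => by rw [if_neg (h2 ξ), mul_zero, zero_mul], norm_zero]

end GSLx

end Pool.Agent.Q145.HC
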