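import Pool.Agent.Q237.HC.GslA

/-!
# Project HC, job GSL: the level `q` inequality
-/

set_option autoImplicit false

namespace Pool.Agent.Q145.HC

open Finset
open Pool.Agent.H807R2.Dav (ee)
open Pool.Agent.Q145.SZ

namespace GSLx

theorem mem_div_Ioc {n n' g : ℕ} (hg : 0 < g) (u : ℕ) :
    g * u ∈ Ioc n n' ↔ u ∈ Ioc (n / g) (n' / g) := by
  rw [mem_Ioc, mem_Ioc, Nat.div_lt_iff_lt_mul hg, Nat.le_div_iff_mul_le hg, mul_comm u g]

theorem sum_multiples (d n n' : ℕ) (hd : 0 < d) (F : ℕ → ℂ) :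
    ∑ u ∈ (Ioc n n').filter (fun u => d ∣ u), F u = ∑ u ∈ Ioc (n / d) (n' / d), F (d * u) := by
  symm
  refine sum_nbij' (fun u => d * u) (fun u => u / d) ?_ ?_ ?_ ?_ ?_
  · intro u hu
    rw [mem_filter]
    exact ⟨(mem_div_Ioc hd u).2 hu, dvd_mul_right _ _⟩
  · intro u hu
    rw [mem_filter] at hu
    obtain ⟨h1, v, rfl⟩ := hu
    rw [Nat.mul_div_cancel_left v hd]
    exact (mem_div_Ioc hd v).1 h1
  · intro u _
    exact Nat.mul_div_cancel_left u hd
  · intro u hu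
    rw [mem_filter] at hu
    exact Nat.mul_div_cancel' hu.2
  · intro u _
    rfl

theorem group_gcd (q n n' : ℕ) (hq : 1 ≤ q) (F : ℕ → ℂ) :
    ∑ u ∈ Ioc n n', F u = ∑ g ∈ q.divisors,
      ∑ u ∈ (Ioc (n / g) (n' / g)).filter (fun u => u.Coprime (q / g)), F (g * u) := by
  have h1 : ∀ u ∈ Ioc n n', Nat.gcd u q ∈ q.divisors := fun u _ =>
    Nat.mem_divisors.2 ⟨Nat.gcd_dvd_right u q, by omega⟩
  rw [← sum_fiberwise_of_maps_to h1]
  refine sum_congr rfl fun g hg => ?_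
  have hgq := (Nat.mem_divisors.1 hg).1
  have hg0 : 0 < g := Nat.pos_of_dvd_of_pos hgq (by omega)
  refine sum_nbij' (fun u => u / g) (fun u => g * u) ?_ ?_ ?_ ?_ ?_
  · intro u hu
    rw [mem_filter] at hu
    obtain ⟨h2, h3⟩ := hu
    have h4 : g ∣ u := by rw [← h3]; exact Nat.gcd_dvd_left u q
    rw [mem_filter]
    constructor
    · rw [← mem_div_Ioc hg0, Nat.mul_div_cancel' h4]
      exact h2
    · have := Nat.coprime_div_gcd_div_gcd (m := u) (n := q) (by rw [h3]; exact hg0)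
      rwa [h3] at this
  · intro u hu
    rw [mem_filter] at hu
    rw [mem_filter]
    refine ⟨(mem_div_Ioc hg0 u).2 hu.1, ?_⟩
    have h5 : q = g * (q / g) := (Nat.mul_div_cancel' hgq).symm
    conv_lhs => rw [h5]
    rw [Nat.gcd_mul_left, hu.2, mul_one]
  · intro u hu
    rw [mem_filter] at hu
    have h4 : g ∣ u := by rw [← hu.2]; exact Nat.gcd_dvd_left u q
    exact Nat.mul_div_cancel' h4
  · intro u _
    exact Nat.mul_div_cancel_left u hg0
  · intro u hu
    rw [mem_filter] at hu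
    have h4 : g ∣ u := by rw [← hu.2]; exact Nat.gcd_dvd_left u q
    rw [Nat.mul_div_cancel' h4]

theorem cop_sum (k n n' : ℕ) (hk : k ≠ 0) (F : ℕ → ℂ) :
    ∑ u ∈ Ioc n n', (if Nat.Coprime u k then (1 : ℂ) else 0) * F u =
      ∑ d ∈ k.divisors, ((ArithmeticFunction.moebius d : ℤ) : ℂ) *
        ∑ u ∈ Ioc (n / d) (n' / d), F (d * u) := by
  have h1 : ∀ u ∈ Ioc n n', (if Nat.Coprime u k then (1 : ℂ) else 0) * F u =
      ∑ d ∈ k.divisors, if d ∣ u then ((ArithmeticFunction.moebius d : ℤ) : ℂ) * F u else 0 := by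
    intro u _
    rw [← H385.GaussAux.sum_moebius_gcd u k hk, sum_mul, sum_filter]
  rw [sum_congr rfl h1, sum_comm]
  refine sum_congr rfl fun d hd => ?_
  have hd0 : 0 < d := Nat.pos_of_mem_divisors hd
  rw [← sum_filter, ← sum_multiples d n n' hd0 F, mul_sum]

/-- the coefficients -/
noncomputable def bb (β : ℝ) (m : ℕ) : ℂ := ((lm m : ℝ) : ℂ) * ee (m * β)

/-- the character sums -/
noncomputable def TT {f : ℕ} (ψ : DirichletCharacter ℂ f) (n n' : ℕ) (β : ℝ) (j : ℕ) : ℝ :=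
  ‖∑ u ∈ Ioc (n / j) (n' / j), xl ψ u * ee (u * (j * β))‖

theorem TT_nonneg {f : ℕ} (ψ : DirichletCharacter ℂ f) (n n' : ℕ) (β : ℝ) (j : ℕ) :
    0 ≤ TT ψ n n' β j := norm_nonneg _

/-- the combination of the character sums -/
noncomputable def RR {f : ℕ} (ψ : DirichletCharacter ℂ f) (n n' : ℕ) (β : ℝ) (k : ℕ) : ℝ :=
  ∑ g ∈ k.divisors, (1 / (Nat.totient (k / g) : ℝ)) *
    ∑ d ∈ (k / g).divisors, TT ψ n n' β (g * d)

theorem RR_nonneg {f : ℕ} (ψ : DirichletCharacter ℂ f) (n n' : ℕ) (β : ℝ) (k : ℕ) :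
    0 ≤ RR ψ n n' β k :=
  sum_nonneg fun _ _ => mul_nonneg (by positivity) (sum_nonneg fun _ _ => TT_nonneg _ _ _ _ _)

theorem B_bound (f D g n n' : ℕ) [NeZero D] (hg : g ≠ 0) (h : f ∣ D) (ψ : DirichletCharacter ℂ f)
    (β : ℝ) :
    ‖∑ u ∈ (Ioc (n / g) (n' / g)).filter (fun u => u.Coprime D), bb β (g * u) *
        DirichletCharacter.changeLevel h ψ (u : ZMod D)‖ ≤
      ∑ d ∈ (D / f).divisors, TT ψ n n' β (g * d) := by
  obtain ⟨k, rfl⟩ := h
  have hf0 : f ≠ 0 := by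
    rintro rfl
    exact NeZero.ne (0 * k) (by simp)
  have hk0 : k ≠ 0 := by
    rintro rfl
    exact NeZero.ne (f * 0) (by simp)
  haveI : NeZero f := ⟨hf0⟩
  rw [Nat.mul_div_cancel_left k (Nat.pos_of_ne_zero hf0)]
  have h1 : ∑ u ∈ (Ioc (n / g) (n' / g)).filter (fun u => u.Coprime (f * k)), bb β (g * u) *
        DirichletCharacter.changeLevel (Dvd.intro k rfl) ψ (u : ZMod (f * k)) =
      ∑ u ∈ Ioc (n / g) (n' / g), (if Nat.Coprime u k then (1 : ℂ) else 0) *
        (bb β (g * u) * ψ (u : ZMod f)) := by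
    rw [sum_filter]
    refine sum_congr rfl fun u _ => ?_
    split_ifs with h2 h3 h3
    · rw [H385.GaussAux.changeLevel_apply f k hk0 ψ u, if_pos h3]
      ring
    · exact absurd (Nat.Coprime.coprime_dvd_right (dvd_mul_left k f) h2) h3
    · have h4 : ¬ IsUnit (u : ZMod (f * k)) := by
        rw [ZMod.isUnit_iff_coprime]
        exact h2
      have h5 := MulChar.map_nonunit (DirichletCharacter.changeLevel (Dvd.intro k rfl) ψ) h4
      rw [H385.GaussAux.changeLevel_apply f k hk0 ψ u, if_pos h3, one_mul] at h5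
      rw [h5]
      ring
    · rw [zero_mul]
  have h1' := h1
  rw [cop_sum k (n / g) (n' / g) hk0 (fun u => bb β (g * u) * ψ (u : ZMod f))] at h1'
  refine (le_of_eq (congrArg _ h1')).trans ?_
  refine (norm_sum_le _ _).trans (sum_le_sum fun d hd => ?_)
  have hd0 : d ≠ 0 := (Nat.pos_of_mem_divisors hd).ne'
  have h2 : ∑ u ∈ Ioc (n / g / d) (n' / g / d), bb β (g * (d * u)) * ψ ((d * u : ℕ) : ZMod f) =
      (((lm (g * d) : ℝ) : ℂ) * ψ (d : ZMod f)) *
        ∑ u ∈ Ioc (n / (g * d)) (n' / (g * d)), xl ψ u * ee (u * (((g * d : ℕ) : ℝ) * β)) := by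
    rw [Nat.div_div_eq_div_mul, Nat.div_div_eq_div_mul, mul_sum]
    refine sum_congr rfl fun u hu => ?_
    have hu0 : u ≠ 0 := (lt_of_le_of_lt (Nat.zero_le _) (mem_Ioc.1 hu).1).ne'
    unfold bb xl
    rw [← mul_assoc g d u, lm_mul (mul_ne_zero hg hd0) hu0, Nat.cast_mul d u, map_mul]
    have h3 : (((g * d * u : ℕ) : ℝ) * β) = (u : ℝ) * (((g * d : ℕ) : ℝ) * β) := by
      push_cast
      ring
    rw [h3]
    push_cast
    ring
  rw [h2, norm_mul, norm_mul, norm_mul, norm_lm, one_mul]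
  have h3 : ‖((ArithmeticFunction.moebius d : ℤ) : ℂ)‖ ≤ 1 := by
    rw [Complex.norm_intCast]
    exact_mod_cast ArithmeticFunction.abs_moebius_le_one
  have h4 : ‖ψ (d : ZMod f)‖ ≤ 1 := ψ.norm_le_one _
  calc ‖((ArithmeticFunction.moebius d : ℤ) : ℂ)‖ * (‖ψ (d : ZMod f)‖ *
        ‖∑ u ∈ Ioc (n / (g * d)) (n' / (g * d)), xl ψ u * ee (u * (((g * d : ℕ) : ℝ) * β))‖)
      ≤ 1 * (1 * ‖∑ u ∈ Ioc (n / (g * d)) (n' / (g * d)),
          xl ψ u * ee (u * (((g * d : ℕ) : ℝ) * β))‖) := by gcongr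
    _ = TT ψ n n' β (g * d) := by
        rw [one_mul, one_mul]
        rfl

/-- the coefficient of the character induced by `ψ` -/
theorem char_bound (q f n n' : ℕ) [NeZero q] (hf : f ∣ q) (ψ : DirichletCharacter ℂ f)
    (hψ : ψ.IsPrimitive) (β : ℝ) :
    ‖∑ z : ZMod q, (DirichletCharacter.changeLevel hf ψ)⁻¹ z *
        ∑ u ∈ Ioc n n', bb β u * ZMod.stdAddChar ((u : ZMod q) * z)‖ ≤
      (Nat.totient q : ℝ) * (√(f : ℝ) / Nat.totient f) * RR ψ n n' β (q / f) := by
  classical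
  have hq1 : 1 ≤ q := NeZero.one_le
  have hf0 : 0 < f := Nat.pos_of_dvd_of_pos hf (by omega)
  have h1 : ∑ z : ZMod q, (DirichletCharacter.changeLevel hf ψ)⁻¹ z *
        ∑ u ∈ Ioc n n', bb β u * ZMod.stdAddChar ((u : ZMod q) * z) =
      ∑ u ∈ Ioc n n', bb β u * ∑ z : ZMod q, (DirichletCharacter.changeLevel hf ψ)⁻¹ z *
        ZMod.stdAddChar ((u : ZMod q) * z) := by
    simp only [mul_sum]
    rw [sum_comm]
    exact sum_congr rfl fun u _ => sum_congr rfl fun z _ => by ring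
  rw [h1, group_gcd q n n' hq1]
  refine (norm_sum_le _ _).trans ?_
  have h2 : ∀ g ∈ q.divisors,
      ‖∑ u ∈ (Ioc (n / g) (n' / g)).filter (fun u => u.Coprime (q / g)), bb β (g * u) *
        ∑ z : ZMod q, (DirichletCharacter.changeLevel hf ψ)⁻¹ z *
          ZMod.stdAddChar (((g * u : ℕ) : ZMod q) * z)‖ ≤
      if f ∣ q / g then (Nat.totient q : ℝ) * (1 / (Nat.totient (q / g) : ℝ)) * √(f : ℝ) *
        ∑ d ∈ (q / g / f).divisors, TT ψ n n' β (g * d) else 0 := by
    intro g hg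
    have hgq := (Nat.mem_divisors.1 hg).1
    have hg0 : 0 < g := Nat.pos_of_dvd_of_pos hgq (by omega)
    have hD0 : 0 < q / g := Nat.div_pos (Nat.le_of_dvd (by omega) hgq) hg0
    haveI : NeZero (q / g) := ⟨hD0.ne'⟩
    have hqg : q = g * (q / g) := (Nat.mul_div_cancel' hgq).symm
    have hDq : q / g ∣ q := Nat.div_dvd_of_dvd hgq
    have h3 : ∑ u ∈ (Ioc (n / g) (n' / g)).filter (fun u => u.Coprime (q / g)), bb β (g * u) *
        ∑ z : ZMod q, (DirichletCharacter.changeLevel hf ψ)⁻¹ z *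
          ZMod.stdAddChar (((g * u : ℕ) : ZMod q) * z) =
        ∑ ξ : DirichletCharacter ℂ (q / g),
          ((1 / (Nat.totient (q / g) : ℂ)) * H385.tau (q / g) ξ⁻¹) *
          (if DirichletCharacter.changeLevel hDq ξ = DirichletCharacter.changeLevel hf ψ then
            (Nat.totient q : ℂ) else 0) *
          ∑ u ∈ (Ioc (n / g) (n' / g)).filter (fun u => u.Coprime (q / g)),
            bb β (g * u) * ξ (u : ZMod (q / g)) := by
      have h4 : ∀ u ∈ (Ioc (n / g) (n' / g)).filter (fun u => u.Coprime (q / g)), bb β (g * u) *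
          ∑ z : ZMod q, (DirichletCharacter.changeLevel hf ψ)⁻¹ z *
            ZMod.stdAddChar (((g * u : ℕ) : ZMod q) * z) =
          ∑ ξ : DirichletCharacter ℂ (q / g),
            ((1 / (Nat.totient (q / g) : ℂ)) * H385.tau (q / g) ξ⁻¹) *
            (if DirichletCharacter.changeLevel hDq ξ = DirichletCharacter.changeLevel hf ψ then
              (Nat.totient q : ℂ) else 0) * (bb β (g * u) * ξ (u : ZMod (q / g))) := by
        intro u hu
        rw [mem_filter] at hu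
        rw [gauss_eq q g (q / g) hqg hDq _ u hu.2, mul_sum]
        exact sum_congr rfl fun ξ _ => by ring
      rw [sum_congr rfl h4, sum_comm]
      exact sum_congr rfl fun ξ _ => by rw [mul_sum]
    rw [h3]
    exact level_bound q (q / g) f hDq hf ψ hψ _ _ fun h => B_bound f (q / g) g n n' hg0.ne' h ψ β
  refine (sum_le_sum h2).trans ?_
  rw [← sum_filter]
  have h5 : q.divisors.filter (fun g => f ∣ q / g) = (q / f).divisors := by
    ext g
    rw [mem_filter, Nat.mem_divisors, Nat.mem_divisors]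
    constructor
    · rintro ⟨⟨h6, h7⟩, h8⟩
      refine ⟨?_, (Nat.div_pos (Nat.le_of_dvd (by omega) hf) hf0).ne'⟩
      obtain ⟨D, rfl⟩ := h6
      have hg0 : 0 < g := Nat.pos_of_ne_zero (by rintro rfl; simp at h7)
      rw [Nat.mul_div_cancel_left D hg0] at h8
      obtain ⟨k, rfl⟩ := h8
      refine ⟨k, ?_⟩
      rw [show g * (f * k) = f * (g * k) by ring, Nat.mul_div_cancel_left _ hf0]
    · rintro ⟨⟨k, hk⟩, h7⟩
      have h8 : q = f * (g * k) := by rw [← hk, Nat.mul_div_cancel' hf]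
      have hg0 : 0 < g := Nat.pos_of_ne_zero (by
        rintro rfl
        rw [h8] at hq1
        simp at hq1)
      refine ⟨⟨⟨f * k, by rw [h8]; ring⟩, by omega⟩, ?_⟩
      rw [h8, show f * (g * k) = g * (f * k) by ring, Nat.mul_div_cancel_left _ hg0]
      exact dvd_mul_right _ _
  rw [h5]
  unfold RR
  rw [mul_sum]
  refine sum_le_sum fun g hg => ?_
  rw [Nat.mem_divisors] at hg
  obtain ⟨⟨k, hk⟩, h7⟩ := hg
  have h8 : q = f * (g * k) := by rw [← hk, Nat.mul_div_cancel' hf]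
  have hg0 : 0 < g := Nat.pos_of_ne_zero (by
    rintro rfl
    rw [h8] at hq1
    simp at hq1)
  have hk0 : 0 < k := Nat.pos_of_ne_zero (by
    rintro rfl
    rw [h8] at hq1
    simp at hq1)
  have e1 : q / g = f * k := by
    rw [h8, show f * (g * k) = g * (f * k) by ring, Nat.mul_div_cancel_left _ hg0]
  have e2 : q / f / g = k := by rw [hk, Nat.mul_div_cancel_left _ hg0]
  have e3 : f * k / f = k := Nat.mul_div_cancel_left _ hf0
  rw [e1, e2, e3]
  have hφf : (0 : ℝ) < Nat.totient f := by exact_mod_cast Nat.totient_pos.2 hf0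
  have hφk : (0 : ℝ) < Nat.totient k := by exact_mod_cast Nat.totient_pos.2 hk0
  have h9 : 1 / (Nat.totient (f * k) : ℝ) ≤ 1 / ((Nat.totient f : ℝ) * Nat.totient k) := by
    apply one_div_le_one_div_of_le (by positivity)
    exact_mod_cast Nat.totient_super_multiplicative f k
  have h10 : 0 ≤ ∑ d ∈ k.divisors, TT ψ n n' β (g * d) :=
    sum_nonneg fun _ _ => TT_nonneg _ _ _ _ _
  calc (Nat.totient q : ℝ) * (1 / (Nat.totient (f * k) : ℝ)) * √(f : ℝ) *
        ∑ d ∈ k.divisors, TT ψ n n' β (g * d)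
      ≤ (Nat.totient q : ℝ) * (1 / ((Nat.totient f : ℝ) * Nat.totient k)) * √(f : ℝ) *
        ∑ d ∈ k.divisors, TT ψ n n' β (g * d) := by gcongr
    _ = _ := by
        field_simp

theorem card_cop (q k : ℕ) : ((range (q * k)).filter (fun x => q.Coprime x)).card =
    Nat.totient q * k := by
  induction k with
  | zero => simp
  | succ k ih =>
    have e : (range (q * (k + 1))).filter (fun x => q.Coprime x) =
        (range (q * k)).filter (fun x => q.Coprime x) ∪
          (Ico (q * k) (q * k + q)).filter (fun x => q.Coprime x) := by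
      rw [← filter_union]
      congr 1
      ext x
      rw [mem_union, mem_range, mem_range, mem_Ico, mul_add, mul_one]
      omega
    rw [e, card_union_of_disjoint, ih, Nat.filter_coprime_Ico_eq_totient]
    · ring
    · rw [disjoint_left]
      intro x hx hy
      rw [mem_filter, mem_range] at hx
      rw [mem_filter, mem_Ico] at hy
      omega

theorem totient_mul_le' (a b : ℕ) : Nat.totient (a * b) ≤ Nat.totient a * b := by
  rw [← card_cop a b, Nat.totient_eq_card_coprime]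
  apply card_le_card
  intro x hx
  rw [mem_filter] at hx ⊢
  exact ⟨hx.1, Nat.Coprime.coprime_dvd_left (dvd_mul_right a b) hx.2⟩

theorem level_sum (q n n' : ℕ) [NeZero q] (β : ℝ) :
    ∑ r ∈ (range q).filter (fun r => r.Coprime q),
      ‖∑ u ∈ Ioc n n', ((lm u : ℝ) : ℂ) * ee (u * ((r : ℝ) / q + β))‖ ^ 2 ≤
    ∑ f ∈ q.divisors, ((f : ℝ) / Nat.totient f) * ((q / f : ℕ) : ℝ) *
      ∑ ψ ∈ prim f, (RR ψ n n' β (q / f)) ^ 2 := by
  classical
  have hq : 1 ≤ q := NeZero.one_le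
  have hφ : (0 : ℝ) < Nat.totient q := by exact_mod_cast Nat.totient_pos.mpr hq
  set S : ZMod q → ℂ := fun z => ∑ u ∈ Ioc n n', bb β u * ZMod.stdAddChar ((u : ZMod q) * z)
    with hS
  have hL : ∀ r : ℕ, ∑ u ∈ Ioc n n', ((lm u : ℝ) : ℂ) * ee (u * ((r : ℝ) / q + β)) =
      S (r : ZMod q) := by
    intro r
    simp only [hS]
    refine sum_congr rfl fun u _ => ?_
    have h1 := H385.ee_eq (q := q) ((u : ℤ) * r)
    push_cast at h1
    unfold bb
    rw [← h1, mul_assoc]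
    congr 1
    have h2 : (u : ℝ) * ((r : ℝ) / q + β) = u * β + (u : ℝ) * r / q := by ring
    rw [h2, Pool.Agent.H807R2.Dav.ee_add]
    rfl
  simp_rw [hL]
  rw [H385.sum_coprime_eq (q := q) (fun z => ‖S z‖ ^ 2)]
  have hpar := H385.parseval (q := q) S
  have hval : ∑ z ∈ (univ : Finset (ZMod q)).filter (fun z => IsUnit z), ‖S z‖ ^ 2 =
      1 / (Nat.totient q : ℝ) * ∑ χ : DirichletCharacter ℂ q, ‖∑ z : ZMod q, χ⁻¹ z * S z‖ ^ 2 := by
    rw [hpar]; field_simp
  rw [hval]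
  have hps := GSx.prim_sum q (fun χ => ‖∑ z : ZMod q, χ⁻¹ z * S z‖ ^ 2) (fun χ => by positivity)
    (fun f ψ => ((Nat.totient q : ℝ) * (√(f : ℝ) / Nat.totient f) * RR ψ n n' β (q / f)) ^ 2)
    (fun f h ψ hψ => pow_le_pow_left₀ (norm_nonneg _) (char_bound q f n n' h ψ hψ β) 2)
  refine (mul_le_mul_of_nonneg_left hps (by positivity)).trans ?_
  rw [mul_sum]
  refine sum_le_sum fun f hf => ?_
  have hfq := (Nat.mem_divisors.1 hf).1
  have hf0 : 0 < f := Nat.pos_of_dvd_of_pos hfq (by omega)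
  have hφf : (0 : ℝ) < Nat.totient f := by exact_mod_cast Nat.totient_pos.2 hf0
  have h1 : (Nat.totient q : ℝ) ≤ Nat.totient f * ((q / f : ℕ) : ℝ) := by
    have := totient_mul_le' f (q / f)
    rw [Nat.mul_div_cancel' hfq] at this
    exact_mod_cast this
  rw [mul_sum, mul_sum]
  refine sum_le_sum fun ψ _ => ?_
  have h2 : √(f : ℝ) ^ 2 = f := Real.sq_sqrt (Nat.cast_nonneg f)
  have h3 : 1 / (Nat.totient q : ℝ) * ((Nat.totient q : ℝ) * (√(f : ℝ) / Nat.totient f) *
      RR ψ n n' β (q / f)) ^ 2 =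
      (Nat.totient q : ℝ) * ((f : ℝ) / (Nat.totient f) ^ 2 * RR ψ n n' β (q / f) ^ 2) := by
    rw [mul_pow, mul_pow, div_pow, h2]
    field_simp
  rw [h3]
  calc (Nat.totient q : ℝ) * ((f : ℝ) / (Nat.totient f) ^ 2 * RR ψ n n' β (q / f) ^ 2)
      ≤ (Nat.totient f * ((q / f : ℕ) : ℝ)) *
        ((f : ℝ) / (Nat.totient f) ^ 2 * RR ψ n n' β (q / f) ^ 2) :=
        mul_le_mul_of_nonneg_right h1 (by positivity)
    _ = _ := by
        field_simp

end GSLx

end Pool.Agent.Q145.HC
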