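import Pool.Agent.Q145.HC.Stm

/-!
# Project HC: second moment over the shifts of the Liouville factors
-/

set_option autoImplicit false

namespace Pool.Agent.Q145.HC

open Finset

theorem SGN_near {L : ℕ} (a : Fin L → ℝ) (y : ℝ) (ha : ∀ j, |a j| ≤ y) (hy : L * y ≤ 1) :
    |∏ j, (1 + a j) - 1| ≤ 2 * (L * y) := by
  have h := Finset.norm_prod_one_add_sub_one_le (univ : Finset (Fin L)) a
  rw [Real.norm_eq_abs] at h
  have h1 : ∑ j, ‖a j‖ ≤ L * y := by
    calc ∑ j, ‖a j‖ ≤ ∑ _j : Fin L, y := sum_le_sum fun j _ => by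
          rw [Real.norm_eq_abs]; exact ha j
      _ = L * y := by rw [sum_const, card_univ, Fintype.card_fin, nsmul_eq_mul]
  have h0 : 0 ≤ ∑ j, ‖a j‖ := sum_nonneg fun j _ => norm_nonneg _
  have h2 : |Real.exp (∑ j, ‖a j‖) - 1| ≤ 2 * |∑ j, ‖a j‖| :=
    Real.abs_exp_sub_one_le (by rw [abs_of_nonneg h0]; linarith)
  rw [abs_of_nonneg h0] at h2
  have h3 := (abs_le.1 h2).2
  linarith

theorem t_SGN : S_SGN := by
  intro X L P E f ε δ hX hδ hL hf hε h1 h2
  classical
  have hX0 : (0 : ℝ) < X := by exact_mod_cast hX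
  obtain ⟨x, hx⟩ : ∃ x : ℕ → (Fin L → ℕ) → ℝ, x = fun n t => ∏ j, (1 + ε j * f (n + t j)) :=
    ⟨_, rfl⟩
  obtain ⟨T, hT⟩ : ∃ T : Finset (Fin L → ℕ), T = Fintype.piFinset (fun _ : Fin L => Icc 1 X) :=
    ⟨_, rfl⟩
  obtain ⟨S, hS⟩ : ∃ S : ℕ → ℝ, S = fun n => (∑ t ∈ Icc 1 X, f (n + t)) / X := ⟨_, rfl⟩
  obtain ⟨C, hC⟩ : ∃ C : ℕ → ℕ → ℝ,
    C = fun n m => (∑ t ∈ Icc 1 X, f (n + t) * f (m + t)) / X := ⟨_, rfl⟩
  have hcardI : ((Icc 1 X).card : ℝ) = X := by simp
  have hTc : (∑ _t ∈ T, (1 : ℝ)) = (X : ℝ) ^ L := by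
    rw [hT, sum_const, nsmul_eq_mul, mul_one, Fintype.card_piFinset]
    simp
  -- the indicator
  have hxv : ∀ n t, x n t = if ∀ j, f (n + t j) = ε j then (2 : ℝ) ^ L else 0 := by
    intro n t
    rw [hx]
    simp only
    split_ifs with h
    · have : ∀ j : Fin L, 1 + ε j * f (n + t j) = 2 := by
        intro j
        rw [h j]
        rcases hε j with e | e <;> rw [e] <;> norm_num
      rw [prod_congr rfl fun j _ => this j, prod_const, card_univ, Fintype.card_fin]
    · push Not at h
      obtain ⟨j, hj⟩ := h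
      refine prod_eq_zero (mem_univ j) ?_
      rcases hε j with e | e <;> rcases hf (n + t j) with e' | e'
      · exact absurd (e'.trans e.symm) hj
      · rw [e, e']; norm_num
      · rw [e, e']; norm_num
      · exact absurd (e'.trans e.symm) hj
  have hx0 : ∀ n t, 0 ≤ x n t := by
    intro n t
    rw [hxv]
    split_ifs
    · positivity
    · exact le_rfl
  have hcount : ∀ t, (2 : ℝ) ^ L * ((P.filter fun n => ∀ j, f (n + t j) = ε j).card : ℝ) -
      (P.card : ℝ) = ∑ n ∈ P, (x n t - 1) := by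
    intro t
    rw [sum_sub_distrib, sum_const, nsmul_eq_mul, mul_one, card_filter, Nat.cast_sum, mul_sum]
    congr 1
    refine sum_congr rfl fun n _ => ?_
    rw [hxv, Nat.cast_ite, Nat.cast_one, Nat.cast_zero, mul_ite, mul_one, mul_zero]
  -- first and second moments
  have hprod : ∀ g : Fin L → ℕ → ℝ, ∑ t ∈ T, ∏ j, g j (t j) = ∏ j, ∑ s ∈ Icc 1 X, g j s := by
    intro g
    rw [hT]
    exact (Finset.prod_univ_sum (fun _ : Fin L => Icc 1 X) g).symm
  have hm1 : ∀ n, ∑ t ∈ T, x n t = (X : ℝ) ^ L * ∏ j, (1 + ε j * S n) := by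
    intro n
    rw [hx]
    simp only
    rw [hprod (fun j s => 1 + ε j * f (n + s))]
    have : ∀ j : Fin L, ∑ s ∈ Icc 1 X, (1 + ε j * f (n + s)) = X * (1 + ε j * S n) := by
      intro j
      rw [sum_add_distrib, sum_const, nsmul_eq_mul, mul_one, hcardI, ← mul_sum, hS]
      field_simp
    rw [prod_congr rfl fun j _ => this j, prod_mul_distrib, prod_const, card_univ,
      Fintype.card_fin]
  have hm2 : ∀ n m, ∑ t ∈ T, x n t * x m t =
      (X : ℝ) ^ L * ∏ j, (1 + (ε j * S n + ε j * S m + C n m)) := by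
    intro n m
    rw [hx]
    simp only [← prod_mul_distrib]
    rw [hprod (fun j s => (1 + ε j * f (n + s)) * (1 + ε j * f (m + s)))]
    have : ∀ j : Fin L, ∑ s ∈ Icc 1 X, (1 + ε j * f (n + s)) * (1 + ε j * f (m + s)) =
        X * (1 + (ε j * S n + ε j * S m + C n m)) := by
      intro j
      have e1 : ∀ s ∈ Icc 1 X, (1 + ε j * f (n + s)) * (1 + ε j * f (m + s)) =
          ((1 + ε j * f (n + s)) + ε j * f (m + s)) + f (n + s) * f (m + s) := by
        intro s _
        rcases hε j with e | e <;> rw [e] <;> ring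
      rw [sum_congr rfl e1, sum_add_distrib, sum_add_distrib, sum_add_distrib, sum_const,
        nsmul_eq_mul, mul_one, hcardI, ← mul_sum, ← mul_sum, hS, hC]
      field_simp
      ring
    rw [prod_congr rfl fun j _ => this j, prod_mul_distrib, prod_const, card_univ,
      Fintype.card_fin]
  have hS1 : ∀ n ∈ P, |S n| ≤ δ := by
    intro n hn
    rw [hS]
    simp only
    rw [abs_div, abs_of_pos hX0, div_le_iff₀ hX0]
    exact h1 n hn
  have hS2 : ∀ n ∈ P, ∀ j, |ε j * S n| ≤ δ := by
    intro n hn j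
    rw [abs_mul]
    have : |ε j| = 1 := by rcases hε j with e | e <;> rw [e] <;> norm_num
    rw [this, one_mul]
    exact hS1 n hn
  have hLd : 0 ≤ (L : ℝ) * δ := mul_nonneg (Nat.cast_nonneg _) hδ
  have hE1 : ∀ n ∈ P, 1 - 2 * (L * δ) ≤ ∏ j, (1 + ε j * S n) := by
    intro n hn
    have := (abs_le.1 (SGN_near (fun j => ε j * S n) δ (hS2 n hn) (by linarith))).1
    linarith
  -- the term of a pair
  have hterm : ∀ n ∈ P, ∀ m ∈ P, ∑ t ∈ T, (x n t - 1) * (x m t - 1) ≤
      (X : ℝ) ^ L * (10 * L * δ + 2 ^ (L + 2) * (if (n, m) ∈ E then (1 : ℝ) else 0)) := by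
    intro n hn m hm
    have e1 : ∑ t ∈ T, (x n t - 1) * (x m t - 1) = (X : ℝ) ^ L *
        (∏ j, (1 + (ε j * S n + ε j * S m + C n m)) - ∏ j, (1 + ε j * S n) -
          ∏ j, (1 + ε j * S m) + 1) := by
      have e2 : ∀ t ∈ T, (x n t - 1) * (x m t - 1) = x n t * x m t - x n t - x m t + 1 :=
        fun t _ => by ring
      rw [sum_congr rfl e2, sum_add_distrib, sum_sub_distrib, sum_sub_distrib, hm2, hm1, hm1, hTc]
      ring
    rw [e1]
    refine mul_le_mul_of_nonneg_left ?_ (by positivity)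
    have a1 := hE1 n hn
    have a2 := hE1 m hm
    by_cases hnm : (n, m) ∈ E
    · rw [if_pos hnm, mul_one]
      have b1 : ∏ j, (1 + (ε j * S n + ε j * S m + C n m)) ≤ 2 ^ (L + 1) := by
        have c0 : ∀ j, 0 ≤ 1 + (ε j * S n + ε j * S m + C n m) := by
          intro j
          have e3 : (X : ℝ) * (1 + (ε j * S n + ε j * S m + C n m)) =
              ∑ s ∈ Icc 1 X, (1 + ε j * f (n + s)) * (1 + ε j * f (m + s)) := by
            have e1 : ∀ s ∈ Icc 1 X, (1 + ε j * f (n + s)) * (1 + ε j * f (m + s)) =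
                ((1 + ε j * f (n + s)) + ε j * f (m + s)) + f (n + s) * f (m + s) := by
              intro s _
              rcases hε j with e | e <;> rw [e] <;> ring
            rw [sum_congr rfl e1, sum_add_distrib, sum_add_distrib, sum_add_distrib, sum_const,
              nsmul_eq_mul, mul_one, hcardI, ← mul_sum, ← mul_sum, hS, hC]
            field_simp
            ring
          have e4 : 0 ≤ ∑ s ∈ Icc 1 X, (1 + ε j * f (n + s)) * (1 + ε j * f (m + s)) := by
            refine sum_nonneg fun s _ => mul_nonneg ?_ ?_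
            · rcases hε j with e | e <;> rcases hf (n + s) with e' | e' <;> rw [e, e'] <;> norm_num
            · rcases hε j with e | e <;> rcases hf (m + s) with e' | e' <;> rw [e, e'] <;> norm_num
          rw [← e3] at e4
          exact nonneg_of_mul_nonneg_right e4 hX0
        have c1 : ∀ j, 1 + (ε j * S n + ε j * S m + C n m) ≤ 2 * (1 + δ) := by
          intro j
          have d1 := (abs_le.1 (hS2 n hn j)).2
          have d2 := (abs_le.1 (hS2 m hm j)).2
          have d3 : C n m ≤ 1 := by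
            rw [hC]
            simp only
            rw [div_le_one hX0]
            calc ∑ t ∈ Icc 1 X, f (n + t) * f (m + t) ≤ ∑ _t ∈ Icc 1 X, (1 : ℝ) := by
                  refine sum_le_sum fun s _ => ?_
                  rcases hf (n + s) with e | e <;> rcases hf (m + s) with e' | e' <;>
                    rw [e, e'] <;> norm_num
              _ = X := by rw [sum_const, nsmul_eq_mul, mul_one, hcardI]
          linarith
        calc ∏ j, (1 + (ε j * S n + ε j * S m + C n m)) ≤ ∏ _j : Fin L, (2 * (1 + δ)) :=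
              prod_le_prod (fun j _ => c0 j) fun j _ => c1 j
          _ = 2 ^ L * (1 + δ) ^ L := by
              rw [prod_const, card_univ, Fintype.card_fin, mul_pow]
          _ ≤ 2 ^ L * 2 := by
              refine mul_le_mul_of_nonneg_left ?_ (by positivity)
              have d := SGN_near (L := L) (fun _ => δ) δ (fun _ => by rw [abs_of_nonneg hδ])
                (by linarith)
              rw [prod_const, card_univ, Fintype.card_fin] at d
              have := (abs_le.1 d).2
              linarith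
          _ = 2 ^ (L + 1) := by rw [pow_succ]
      have b2 : (2 : ℝ) ^ (L + 2) = 2 * 2 ^ (L + 1) := by ring
      have b3 : (1 : ℝ) ≤ 2 ^ (L + 1) := one_le_pow₀ (by norm_num)
      rw [b2]
      nlinarith
    · rw [if_neg hnm, mul_zero, add_zero]
      have b0 : |C n m| ≤ δ := by
        rw [hC]
        simp only
        rw [abs_div, abs_of_pos hX0, div_le_iff₀ hX0]
        exact h2 n hn m hm hnm
      have b1 := (abs_le.1 (SGN_near (fun j => ε j * S n + ε j * S m + C n m) (3 * δ)
        (fun j => by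
          have d1 := hS2 n hn j
          have d2 := hS2 m hm j
          have d3 := abs_add_three (ε j * S n) (ε j * S m) (C n m)
          linarith) (by linarith))).2
      linarith
  calc ∑ t ∈ Fintype.piFinset (fun _ : Fin L => Icc 1 X),
        ((2 : ℝ) ^ L * ((P.filter fun n => ∀ j, f (n + t j) = ε j).card : ℝ) - (P.card : ℝ)) ^ 2
      = ∑ t ∈ T, ∑ n ∈ P, ∑ m ∈ P, (x n t - 1) * (x m t - 1) := by
        rw [← hT]
        refine sum_congr rfl fun t _ => ?_
        rw [hcount, sq, sum_mul_sum]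
    _ = ∑ n ∈ P, ∑ m ∈ P, ∑ t ∈ T, (x n t - 1) * (x m t - 1) := by
        rw [sum_comm]
        refine sum_congr rfl fun n _ => ?_
        rw [sum_comm]
    _ ≤ ∑ n ∈ P, ∑ m ∈ P, (X : ℝ) ^ L *
          (10 * L * δ + 2 ^ (L + 2) * (if (n, m) ∈ E then (1 : ℝ) else 0)) :=
        sum_le_sum fun n hn => sum_le_sum fun m hm => hterm n hn m hm
    _ = (X : ℝ) ^ L * (10 * L * δ * (P.card : ℝ) ^ 2 +
          2 ^ (L + 2) * (((P ×ˢ P).filter fun q => q ∈ E).card : ℝ)) := by
        have e1 : (((P ×ˢ P).filter fun q => q ∈ E).card : ℝ) =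
            ∑ n ∈ P, ∑ m ∈ P, (if (n, m) ∈ E then (1 : ℝ) else 0) := by
          rw [card_filter, Nat.cast_sum, sum_product]
          refine sum_congr rfl fun n _ => sum_congr rfl fun m _ => ?_
          rw [Nat.cast_ite, Nat.cast_one, Nat.cast_zero]
        rw [e1]
        simp only [← mul_sum]
        congr 1
        simp only [sum_add_distrib, ← mul_sum, sum_const, nsmul_eq_mul]
        ring

end Pool.Agent.Q145.HC
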